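import Pool.Agent.US97.UFin

/-!
# MP_13bec0_lc: 3SUM with any number of pointers

Machines with `S` bits of memory and `H` pointers into a read-only array of `n` distinct integers of
absolute value at most `n ^ 3`, in arbitrary order; the instruction set is arbitrary.  Lower bound for the
distance travelled by the pointers: for every fixed number of pointers it is at least of order
`n ^ (5 / 3) / (S + log n) ^ (2 / 3)`.
-/

namespace Pool.Agent.Results.MP_13bec0_lc.ManyPointers

open Pool.Agent.TS42 Pool.Agent.US97

/-- 3SUM with `S` bits of memory and `H` pointers: lower bound for the distance travelled by the pointers,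
for zero-error randomised algorithms (expectation) and for nondeterministic machines which certify that
there is no solution. -/
theorem result (n H S : ℕ) (Q : Type) [Fintype Q] (hn : 2 ≤ n) (hH : 1 ≤ H) (hS : 1 ≤ S)
    (hQ : Fintype.card Q ≤ 2 ^ S) :
    (∀ (A : LasVegas n H Q) (D : ℝ), SolvesU A D →
      (n : ℝ) ^ 5 ≤ 10 ^ 23 * (H : ℝ) ^ 5 * (S + H * Real.logb 2 n) ^ 2 * (D + n) ^ 3) ∧
    (∀ (M : NMachine n H Q) (D : ℕ), CertifiesU M D →
      (n : ℝ) ^ 5 ≤ 10 ^ 21 * (H : ℝ) ^ 5 * (S + H * Real.logb 2 n) ^ 2 * ((D : ℝ) + n) ^ 3) :=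
  ⟨fun A D hA => any_V n H S Q hn hH hS hQ A D hA, fun M D hM => any_N n H S Q hn hH hS hQ M D hM⟩

end Pool.Agent.Results.MP_13bec0_lc.ManyPointers
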