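import Pool.Agent.MixLin.Final

/-!
The three-sum problem: superlinear lower bound for decision trees with polynomial questions about
four inputs, affine questions about five inputs, and zero tests of polynomials in all inputs.
-/

namespace Pool.Agent.Results.MP_13bec0_lc.MixedQuestions

open Pool.Agent.MixLin

/-- For all large `n` and all `1 ≤ C ≤ 2 ^ (√(log₂ n) / 12)`: a randomised decision procedure for
three-sum on `n` distinct integers with error probability at most `1/3` has expected cost at least
`n * 2 ^ (√(log₂ n) / 12) / √C` on some input, if each of its questions is of one of three kinds: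
the signs of finitely many real polynomials in four of the inputs (cost `1`), the sign of a
`C`-separated real affine form in at most five of the inputs (cost `1`), or whether a real
polynomial in all the inputs is zero (cost: its degree). Here `σ = 1` is the question `a + b = c`,
and `σ = -1` is the question `a + b + c = 0`. -/
theorem result : ∃ N₀ : ℕ, ∀ n ≥ N₀, ∀ σ : ℤ, σ = 1 ∨ σ = -1 →
    ∀ C : ℝ, 1 ≤ C → C ≤ (2 : ℝ) ^ (Real.sqrt (Real.logb 2 n) / 12) →
    ∀ (Ω : Type) [Fintype Ω] (E : ℝ) (μ : Ω → ℝ) (A : Ω → DTree n), Solver σ n C E μ A →
      (n : ℝ) * (2 : ℝ) ^ (Real.sqrt (Real.logb 2 n) / 12) / Real.sqrt C ≤ E :=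
  main

end Pool.Agent.Results.MP_13bec0_lc.MixedQuestions
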