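import Mathlib
import Pool.Agent.PR16.Upper

/-!
The three-sum problem of the question on parallel machines with concurrent reads and writes and on
circuits of bounded depth.
-/

namespace Pool.Agent.Results.MP_13bec0_lc.ParallelMachines

open PR16

open Classical in
/-- Three-sum on `n` integers of absolute value at most `n ^ 3`.

(1) If parallel machines with `p` processors, drawn with the probabilities `μ`, decide three-sum on
every strictly increasing array with probability at least `2/3` in `T` steps, then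
`n ^ 2 ≤ p * (100 * (⌊log₂ n⌋ + 1)) ^ (2 * T + 3)`.

(2) If circuits with `s` AND and OR gates of unbounded fan-in, of depth `d`, whose inputs are
arbitrary functions of single numbers, drawn with the probabilities `μ`, decide three-sum on every
strictly increasing array with probability at least `2/3`, then
`n ^ 2 ≤ (s + n) * (100 * (⌊log₂ n⌋ + 1)) ^ (2 * d + 5)`.

(3) There is a machine with `n * n` processors that decides three-sum in four steps, for all arrays
of pairwise distinct integers. -/
theorem result :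
    (∀ (n p T : ℕ) (S V Ω : Type) [Fintype Ω] (M : Ω → Machine n p S V) (μ : Ω → ℝ),
      (∀ ω, 0 ≤ μ ω) → ∑ ω, μ ω = 1 →
      (∀ x : Fin n → ℤ, StrictMono x → (∀ i, |x i| ≤ (n : ℤ) ^ 3) →
        (2 / 3 : ℝ) ≤ ∑ ω, if ((M ω).answer x T = true ↔ HasThreeSum x) then μ ω else 0) →
      n ^ 2 ≤ p * (100 * (Nat.log 2 n + 1)) ^ (2 * T + 3)) ∧
    (∀ (n s d : ℕ) (Ω : Type) [Fintype Ω] (C : Ω → Circ n s) (μ : Ω → ℝ),
      (∀ ω, 0 ≤ μ ω) → ∑ ω, μ ω = 1 →
      (∀ ω, (C ω).level (C ω).out < d) →
      (∀ x : Fin n → ℤ, StrictMono x → (∀ i, |x i| ≤ (n : ℤ) ^ 3) →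
        (2 / 3 : ℝ) ≤ ∑ ω, if ((C ω).answer x = true ↔ HasThreeSum x) then μ ω else 0) →
      n ^ 2 ≤ (s + n) * (100 * (Nat.log 2 n + 1)) ^ (2 * d + 5)) ∧
    (∀ n : ℕ, 0 < n → ∃ M : Machine n (n * n) (ℕ × ℤ × ℤ × Bool) ℤ,
      ∀ x : Fin n → ℤ, Function.Injective x → (M.answer x 4 = true ↔ HasThreeSum x)) := by
  refine ⟨?_, ?_, ?_⟩
  · intro n p T S V Ω _ M μ h0 h1 h2
    refine machine_bound M μ h0 h1 T fun x hx hb => ?_
    convert h2 x hx hb
  · intro n s d Ω _ C μ h0 h1 hd h2
    have := machine_bound (fun ω => (C ω).machine) μ h0 h1 (d + 1) fun x hx hb => ?_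
    · exact this
    · simp only [(C _).machine_answer x (hd _)]
      convert h2 x hx hb
  · intro n hn
    exact ⟨quad hn, fun x hx => quad_answer hn x hx⟩

end Pool.Agent.Results.MP_13bec0_lc.ParallelMachines
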