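import Pool.Agent.TP97.Num
import Pool.Agent.TP97.UpS

/-!
# MP_13bec0_lc: 3SUM with two pointers

Machines with `S` bits of memory and two pointers into a read-only sorted array of `n` integers of
absolute value at most `n ^ 3`; the instruction set is arbitrary.  The least distance travelled by the
pointers is `n ^ 2 / S`, up to a factor of order `log n`.
-/

namespace Pool.Agent.Results.MP_13bec0_lc.TwoPointers

open Pool.Agent.TS42

/-- 3SUM with two pointers and `S` bits of memory.  (1) Lower bound for the distance travelled by the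
pointers, for zero-error randomised algorithms (expectation) and for nondeterministic machines which
certify that there is no solution.  (2) A deterministic machine with nearly the same product of memory
and travel. -/
theorem result :
    (∀ (n S : ℕ) (Q : Type) [Fintype Q], 2 ≤ n → 1 ≤ S → Fintype.card Q ≤ 2 ^ S →
      (∀ (A : LasVegas n 2 Q) (T D : ℝ), A.Solves T D →
        (n : ℝ) ^ 2 ≤ 20000000 * (D + n) * (S + 2 * Real.logb 2 n)) ∧
      (∀ (M : NMachine n 2 Q) (T D : ℕ), M.Certifies T D →
        (n : ℝ) ^ 2 ≤ 5000000 * (D + n) * (S + 2 * Real.logb 2 n))) ∧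
    (∀ n S : ℕ, 2 ≤ n → 13 * (Nat.log 2 n + 1) ≤ S →
      ∃ (Q : Type) (_ : Fintype Q) (M : Machine n 2 Q), Fintype.card Q ≤ 2 ^ S ∧
        ∀ x : Fin n → ℤ, Inp n x → M.Correct x ∧
          S * M.time x ≤ 780 * (n ^ 2 * (Nat.log 2 n + 1)) + 30 * (n * S) ∧
          S * travel (M.run x) (M.time x) ≤ 780 * (n ^ 2 * (Nat.log 2 n + 1)) + 30 * (n * S)) :=
  ⟨fun n S Q _ hn hS hQ => ⟨fun A T D hA => TP97.two_V n S Q hn hS hQ A T D hA,
    fun M T D hM => TP97.two_N n S Q hn hS hQ M T D hM⟩,
    fun n S hn hS => TP97.upper_S n S hn hS⟩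

end Pool.Agent.Results.MP_13bec0_lc.TwoPointers
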